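import Pool.Agent.CVB.Main
set_option autoImplicit false

namespace Pool.Agent.Results.MP_6b9047_co.BlockProjection

open Pool.Agent.Helper67.Covering

/-- Let `F` be a covering family in `(ZMod 3)^q`, `B j` (`j < k`, `k ≥ 1`) pairwise disjoint nonempty sets of
coordinates, `A j` a set of at most `2 ^ |B j|` words on `B j`, and `t ≥ 0` with: the average over `x ∈ F` of the
number of `j` with `x | B j ∉ A j` is at most `t`. Then `|F| ≤ 6 √((t + 1) / k) 2 ^ q`. -/
theorem result : ∀ (q k : ℕ) (F : Finset (Fin q → ZMod 3)) (B : Fin k → Finset (Fin q))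
    (A : ∀ j, Finset (B j → ZMod 3)) (t : ℝ), Covering F →
    (∀ i j, i ≠ j → Disjoint (B i) (B j)) → (∀ j, (B j).Nonempty) →
    (∀ j, (A j).card ≤ 2 ^ (B j).card) → 1 ≤ k → 0 ≤ t →
    (∑ j, ((F.filter fun x => (fun i : B j => x i) ∉ A j).card : ℝ)) ≤ t * F.card →
    (F.card : ℝ) ≤ 6 * √((t + 1) / k) * 2 ^ q := by
  intro q k F B A t hF hB hne hA hk ht hexc
  exact Pool.Agent.CVB.main q k F B A t hF hB hne hA hk ht hexc

end Pool.Agent.Results.MP_6b9047_co.BlockProjection
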