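import Pool.Agent.Helper67.Covering
set_option autoImplicit false

namespace Pool.Agent.Results.MP_6b9047_co.ExactSmall

open Pool.Agent.Helper67.Covering

/-- The exact value of `R(3,q)` for `q ≤ 9`. -/
theorem result : ∀ q : ℕ, 1 ≤ q → q ≤ 9 → R q = q.choose ((q + 1) / 2 - 1) :=
  exact_small

end Pool.Agent.Results.MP_6b9047_co.ExactSmall
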