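import Pool.Agent.Helper67.Covering
set_option autoImplicit false

namespace Pool.Agent.Results.MP_6b9047_co.SixthBound

open Pool.Agent.Helper67.Covering

/-- The upper bound `R(3,q) ≤ 2^q/6 + 3^(q/2)` for every `q ≥ 1`. -/
theorem result : ∀ q : ℕ, 1 ≤ q → (R q : ℝ) ≤ 2 ^ q / 6 + Real.sqrt (3 ^ q) := by
  intro q hq
  obtain ⟨p, rfl⟩ : ∃ p, q = p + 1 := ⟨q - 1, by omega⟩
  exact R_asymp p

end Pool.Agent.Results.MP_6b9047_co.SixthBound
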